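import Pool.Agent.Run7.h710.TR.Cnt
import Pool.Agent.N625.DY.J

/-!
# Primes in progressions to all moduli `≤ x ^ (1 - ε)`, on average over the residues written by a transducer

Absolute values over all moduli and arbitrary heights inside; the residue is averaged, with arbitrary coefficients, over
the values `c + κ T(v)`, `v < a ^ k`, where the transducer `T` reads the digits of `v` in base `a` and writes the digits of
`T(v)` in base `b` (definitions in `Pool.Agent.Run7.h710.TR.Defs`).

Method: if two words of `L` digits lead from the same state to the same state and different words are written, then the two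
parts of the exponential sum over the integers `T(v)` which belong to these words cancel in part at the places where the
frequency has a digit which is not extremal. The passage from such exponential sums to averages of primes in residue classes
is from the starting files (`Pool.Agent.TH872.An.av_law`), in a generic form: `Pool.Agent.N625.DY.J` (helper625).

From Mathlib: `ArithmeticFunction.vonMangoldt`: the function `Λ`; `Nat.totient`: Euler's function.

Examples: the bitwise conjunction or disjunction of `v` and `m v` (the carries are the states); the integer whose digit `i`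
is `f(x_i, x_{i+1}, …, x_{i+r})`, where `x_i` are the digits of `v` and `f` is not constant (one-sided cellular automata).
-/

set_option autoImplicit false

namespace Pool.Agent.Results.MP_848d44_nt.TransducerAverages

open Finset Pool.Agent.Run7.h710.TR

/-- `ψ(x; q, r)`: the sum of `Λ(n)` over the `n ≤ x` with `n ≡ r (mod q)`. -/
noncomputable def psi (x q r : ℕ) : ℝ :=
  ∑ n ∈ (Icc 1 x).filter (fun n => n ≡ r [MOD q]), ArithmeticFunction.vonMangoldt n

/-- The sum of `w(v) (ψ(x; q, r(v)) - x / φ(q))` over the `v < n` for which the residue `r(v)` is positive and coprime to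
`q`. -/
noncomputable def total (n : ℕ) (r : ℕ → ℤ) (w : ℕ → ℝ) (x q : ℕ) : ℝ :=
  ∑ v ∈ (range n).filter (fun v : ℕ => 0 < r v ∧ (r v).toNat.Coprime q),
    w v * (psi x q (r v).toNat - (x : ℝ) / Nat.totient q)

/-- Let `a`, `b ≥ 2`, `L ≥ 1`, `κ ≠ 0`, `B`, `T`, `U` and `ε > 0` be fixed, let `k` be large and `N = b ^ k`. Let an arbitrary
transducer be given which reads digits `< a` and writes digits `< b` (with finitely or infinitely many states) such that from
every state two words of `L` digits lead to the same state, while different words are written; let it begin in an arbitrary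
state `s` and read from the left or from the right, and let `c` be an arbitrary integer with `|c| ≤ B N` (`k` must be large in
terms of the fixed numbers only). Let `w(v)` be arbitrary real coefficients with `|w(v)| ≤ k ^ T`, and for every modulus `q`
let `x(q) ≤ B N` be an arbitrary height. Then the sum over ALL moduli `q ≤ N ^ (1 - ε)` of the ABSOLUTE VALUE of the sum of
`w(v) (ψ(x(q); q, r) - x(q) / φ(q))`, over the integers `v < a ^ k` for which the residue `r = c + κ v'` is positive and
coprime to `q`, is at most `a ^ k N / k ^ U`; here `v'` is the integer which is written when `v` is read. -/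
theorem result (a b L : ℕ) (hb : 2 ≤ b) (hL : 1 ≤ L) (κ : ℤ) (hκ : κ ≠ 0) (B T U : ℕ) (ε : ℝ) (hε : 0 < ε) :
    ∃ k₀ : ℕ, ∀ k : ℕ, k₀ ≤ k → ∀ (S : Type) (δ : S → ℕ → S) (o : S → ℕ → ℕ), Transducer a b L δ o →
      ∀ (left : Bool) (s : S) (c : ℤ), |c| ≤ B * (b : ℤ) ^ k → ∀ w : ℕ → ℝ, (∀ v, |w v| ≤ (k : ℝ) ^ T) →
      ∀ x : ℕ → ℕ, (∀ q, x q ≤ B * b ^ k) →
      ∑ q ∈ Icc 1 ⌊((b ^ k : ℕ) : ℝ) ^ (1 - ε)⌋₊,
        |total (a ^ k) (fun v => c + κ * (image a b δ o left k s v : ℕ)) w (x q) q| ≤
        (a : ℝ) ^ k * (((b ^ k : ℕ) : ℝ) / (k : ℝ) ^ U) := by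
  classical
  obtain ⟨k₀, h0⟩ := Pool.Agent.N625.DY.cls_avg (tr_clsV a b L hb hL κ hκ).toCls B T U ε hε
  refine ⟨k₀, fun k hk S δ o hT left s c hc w hw x hx => ?_⟩
  obtain ⟨w', hw', hsum⟩ := sum_law_coeff hb hT left k s w _ hw
  have h1 := h0 k hk _ ⟨S, δ, o, left, s, hT, rfl⟩ c hc w' hw' x hx
  have ha := two_le hT s
  have hak : (0 : ℝ) < (a : ℝ) ^ k := by
    have : (0 : ℝ) < a := by exact_mod_cast (by omega : 0 < a)
    positivity
  have e1 : ∀ q, |∑ v ∈ (range (b ^ k)).filter (fun v => 0 < c + κ * (v : ℕ) ∧ (c + κ * (v : ℕ)).toNat.Coprime q),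
      law a b δ o left k s v * (w' v * Pool.Agent.N625.DY.Err (x q) q (c + κ * (v : ℕ)).toNat)| =
      |total (a ^ k) (fun v => c + κ * (image a b δ o left k s v : ℕ)) w (x q) q| / (a : ℝ) ^ k := by
    intro q
    have e2 := hsum (fun v => if 0 < c + κ * (v : ℕ) ∧ (c + κ * (v : ℕ)).toNat.Coprime q then
      Pool.Agent.N625.DY.Err (x q) q (c + κ * (v : ℕ)).toNat else 0)
    have e3 : ∑ v ∈ (range (b ^ k)).filter (fun v => 0 < c + κ * (v : ℕ) ∧ (c + κ * (v : ℕ)).toNat.Coprime q),
        law a b δ o left k s v * (w' v * Pool.Agent.N625.DY.Err (x q) q (c + κ * (v : ℕ)).toNat) =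
        (total (a ^ k) (fun v => c + κ * (image a b δ o left k s v : ℕ)) w (x q) q) / (a : ℝ) ^ k := by
      rw [sum_filter]
      rw [Nat.cast_pow] at e2
      unfold total
      rw [sum_filter]
      refine Eq.trans ?_ (e2.trans ?_)
      · apply sum_congr rfl
        intro v _
        split_ifs <;> simp
      · congr 1
        apply sum_congr rfl
        intro v _
        simp only
        split_ifs
        · rfl
        · rw [mul_zero]
    rw [e3, abs_div, abs_of_pos hak]
  simp only [e1] at h1
  rw [← sum_div, div_le_iff₀ hak] at h1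
  rw [mul_comm]
  exact h1

end Pool.Agent.Results.MP_848d44_nt.TransducerAverages
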