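import Pool.Agent.Run7.h844.RP.Avg

/-!
# Primes in progressions to all moduli `≤ Y ^ (1 - ε)`, on average over the residues `⌊f(p) + z⌋`, `p` prime

Absolute values over all moduli and arbitrary heights inside; the residue is the integer part of the value of a generalised
polynomial at a prime, averaged over the primes with arbitrary coefficients.

From Mathlib: `ArithmeticFunction.vonMangoldt`: the function `Λ`; `Nat.totient`: Euler's function; `z.toNat`: the integer
`z` if it is not negative.

Method: exponential sums over primes with the phase of a generalised polynomial: derivative bounds uniform in the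
coefficients, van der Corput differencing of all orders, bilinear sums, Vaughan's identity (after `Pool.Agent.H895R3.NK`,
`Pool.Agent.H373R2.T7`); a discrete Fejér kernel for the passage from real numbers to their integer parts, and a kernel
estimate for the concentration on short intervals which needs only the large frequencies (library
`Pool.Agent.Run7.h844.RP`, after `Pool.Agent.N384.MQ`, `Pool.Agent.N193.PS`). The passage from such exponential
sums to averages of primes in residue classes is from the starting files (`Pool.Agent.TH872.An.av_law`), in a generic form: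
`Pool.Agent.N625.DY.cls_avg`.
-/

set_option autoImplicit false

namespace Pool.Agent.Results.MP_848d44_nt.ValuesAtPrimes

open Finset

/-- The generalised polynomial `∑ a x * t ^ x`, `x ∈ F`, with real exponents and coefficients. -/
noncomputable def genPoly (F : Finset ℝ) (a : ℝ → ℝ) (t : ℝ) : ℝ := ∑ x ∈ F, a x * t ^ x

/-- `c` is the largest exponent; it is positive and not an integer, and its coefficient is not zero. -/
def Leading (F : Finset ℝ) (a : ℝ → ℝ) (c : ℝ) : Prop :=
  c ∈ F ∧ (∀ x ∈ F, x ≤ c) ∧ 0 < c ∧ (∀ m : ℕ, c ≠ m) ∧ a c ≠ 0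

/-- `ψ(x; q, a) - x / φ(q)`, where `ψ(x; q, a)` is the sum of `Λ(n)` over the `n ≤ x` with `n ≡ a (mod q)`. -/
noncomputable def err (x q a : ℕ) : ℝ :=
  ∑ n ∈ (Icc 1 x).filter (fun n => n ≡ a [MOD q]), ArithmeticFunction.vonMangoldt n - (x : ℝ) / Nat.totient q

/-- The sum of `w(p) (ψ(x; q, a_p) - x / φ(q))` over the primes `X < p ≤ 2 X` for which the integer part `a_p` of `f(p) + z` is
positive and coprime to `q`. -/
noncomputable def total (f : ℕ → ℝ) (z : ℝ) (w : ℕ → ℝ) (X x q : ℕ) : ℝ :=
  ∑ p ∈ ((Ioc X (2 * X)).filter Nat.Prime).filter (fun p => 0 < ⌊f p + z⌋ ∧ ⌊f p + z⌋.toNat.Coprime q),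
    w p * err x q ⌊f p + z⌋.toNat

/-- Let `f` be a generalised polynomial whose largest exponent `c` is positive and not an integer, and let `B`, `T`, `U` and
`0 < ε ≤ 1` be fixed. Let `X` be large, `Y = X ^ c`, let `z` be any real number with `|z| ≤ Y`, let `w(p)` be arbitrary real
coefficients with `|w(p)| ≤ log ^ T X`, and for every modulus `q` let `x(q) ≤ B Y` be an arbitrary height. Then for
`Q ≤ Y ^ (1 - ε)` the sum over ALL moduli `q ≤ Q` of the ABSOLUTE VALUE of the sum of
`w(p) (ψ(x(q); q, a_p) - x(q) / φ(q))`, over the primes `X < p ≤ 2 X` for which the residue `a_p = ⌊f(p) + z⌋` is positive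
and coprime to `q`, is at most `X Y / log ^ U X`. -/
theorem result (F : Finset ℝ) (a : ℝ → ℝ) (c : ℝ) (hF : Leading F a c) (B T U : ℕ) (ε : ℝ) (hε : 0 < ε) (hε1 : ε ≤ 1) :
    ∃ X₀ : ℕ, ∀ X : ℕ, X₀ ≤ X → ∀ z : ℝ, |z| ≤ (X : ℝ) ^ c → ∀ w : ℕ → ℝ, (∀ p, |w p| ≤ Real.log X ^ T) →
      ∀ x : ℕ → ℕ, (∀ q, (x q : ℝ) ≤ B * (X : ℝ) ^ c) → ∀ Q : ℕ, (Q : ℝ) ≤ ((X : ℝ) ^ c) ^ (1 - ε) →
      ∑ q ∈ Icc 1 Q, |total (fun p => genPoly F a p) z w X (x q) q| ≤ X * ((X : ℝ) ^ c / Real.log X ^ U) := by
  obtain ⟨X₀, h0⟩ := Pool.Agent.Run7.h844.RP.avg_primes F c hF.1 hF.2.2.2.1 hF.2.2.1 hF.2.1 a hF.2.2.2.2 B T U ε hε hε1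
  exact ⟨X₀, fun X hX z hz w hw x hx Q hQ => h0 X hX z hz w hw x hx Q hQ⟩

end Pool.Agent.Results.MP_848d44_nt.ValuesAtPrimes
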