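import Pool.Agent.N625.GW.D
import Pool.Agent.N625.DY.J

/-!
# Primes in progressions to all moduli `≤ x ^ (1 - ε)`, on average over residues whose digits label walks in a graph

Absolute values over all moduli and arbitrary heights inside; the residue is averaged, with arbitrary coefficients.
The random integers are those whose digits are the labels of a walk between two vertices of a graph, for example of the
Cayley graph of a group: then these are the integers whose digits spell a given element of the group. Such a set can
contain as few as `N ^ ε` integers below `N`, and in general it is not automatic.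

Method: the exponential sum over the walks is dominated by the iterates of the adjacency operator of the graph, whose
square is diminished on the diagonal at the places where the frequency has a digit which is not extremal; the norms of
these operators on the cyclic space of a vertex are controlled by the number of the closed walks (starting files,
`Pool.Agent.N625.GW`, helper625). The passage from such exponential sums to averages of primes in residue classes is from the
starting files (`Pool.Agent.TH872.An.av_law`, `Pool.Agent.N625.DY.cls_avg`). New here: the combination.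

From Mathlib: `ArithmeticFunction.vonMangoldt`: the function `Λ`; `Nat.totient`: Euler's function.
-/

set_option autoImplicit false

namespace Pool.Agent.Results.MP_848d44_nt.WalkAverages

open Finset

/-- The digits `a < b` act on the set `X` of the vertices: an edge with the label `a` leads from `x` to `y` if
`δ x a = some y` (at most one edge with the label `a` starts at `x`). The number of the edges from `x` to `y` equals the
number of the edges from `y` to `x`, and at least two edges start at every vertex. The graph may be infinite. -/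
structure Graph {X : Type} (b : ℕ) (δ : X → ℕ → Option X) : Prop where
  symm : ∀ x y : X, {a : ℕ | a < b ∧ δ x a = some y}.ncard = {a : ℕ | a < b ∧ δ y a = some x}.ncard
  two : ∀ x : X, ∃ a a' : ℕ, a < a' ∧ a' < b ∧ (δ x a).isSome ∧ (δ x a').isSome

open Classical in
/-- The integers `v < b ^ k` whose `k` digits in base `b`, from the most significant to the least significant one (the
digit number `i`, `0 ≤ i < k`, from the left is `v / b ^ (k - 1 - i) % b`), are the labels of a walk from `x` to `y`. -/
noncomputable def walks {X : Type} (b : ℕ) (δ : X → ℕ → Option X) (k : ℕ) (x y : X) : Finset ℕ :=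
  (range (b ^ k)).filter fun v =>
    ((List.range k).map fun i => v / b ^ (k - 1 - i) % b).foldl (fun s a => s.bind fun z => δ z a) (some x) = some y

/-- `ψ(x; q, a) - x / φ(q)`, where `ψ(x; q, a)` is the sum of `Λ(n)` over the `n ≤ x` with `n ≡ a (mod q)`. -/
noncomputable def err (x q a : ℕ) : ℝ :=
  ∑ n ∈ (Icc 1 x).filter (fun n => n ≡ a [MOD q]), ArithmeticFunction.vonMangoldt n - (x : ℝ) / Nat.totient q

/-- The sum of `w(v) (ψ(x; q, a) - x / φ(q))` over the elements `v` of `S` for which the residue `a = c + κ v` is positive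
and coprime to `q`. -/
noncomputable def total (S : Finset ℕ) (κ c : ℤ) (w : ℕ → ℝ) (x q : ℕ) : ℝ :=
  ∑ v ∈ S.filter (fun v : ℕ => 0 < c + κ * (v : ℤ) ∧ (c + κ * (v : ℤ)).toNat.Coprime q),
    w v * err x q (c + κ * (v : ℤ)).toNat

/-- Let `x₀` be a vertex such that the number of the closed walks of length `2n` at `x₀` is at most `ρ ^ (2n)` for all `n`, let
`κ ≠ 0`, `B`, `D`, `T`, `U` and `ε > 0` be fixed, let `k` be large and `N = b ^ k`. Let `y` be any vertex such that there are
at least `ρ ^ k / k ^ D` walks of length `k` from `x₀` to `y`, let `c` be an arbitrary integer with `|c| ≤ B N`, let `w(v)`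
be arbitrary real coefficients with `|w(v)| ≤ k ^ T`, and for every modulus `q` let `x(q) ≤ B N` be an arbitrary height. Then
the sum over ALL moduli `q ≤ N ^ (1 - ε)` of the ABSOLUTE VALUE of the sum of `w(v) (ψ(x(q); q, a_v) - x(q) / φ(q))`, over
the integers `v` whose `k` digits are the labels of a walk from `x₀` to `y` and for which the residue `a_v = c + κ v` is
positive and coprime to `q`, is at most the number of these walks times `N / k ^ U`.

(For a group of polynomial growth, a free group, or any group with the property of rapid decay, there are at least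
`ρ ^ k / k ^ D` closed walks of every even length `k` in the Cayley graph, where `ρ` is its spectral radius.) -/
theorem result {X : Type} (b : ℕ) (δ : X → ℕ → Option X) (hG : Graph b δ) (x₀ : X) (ρ : ℝ) (hρ : 0 < ρ)
    (hR : ∀ n : ℕ, ((walks b δ (2 * n) x₀ x₀).card : ℝ) ≤ ρ ^ (2 * n)) (κ : ℤ) (hκ : κ ≠ 0) (B D T U : ℕ)
    (ε : ℝ) (hε : 0 < ε) :
    ∃ k₀ : ℕ, ∀ k : ℕ, k₀ ≤ k → ∀ y : X, ρ ^ k / (k : ℝ) ^ D ≤ (walks b δ k x₀ y).card →
      ∀ c : ℤ, |c| ≤ B * (b : ℤ) ^ k → ∀ w : ℕ → ℝ, (∀ v, |w v| ≤ (k : ℝ) ^ T) →
      ∀ x : ℕ → ℕ, (∀ q, x q ≤ B * b ^ k) →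
      ∑ q ∈ Icc 1 ⌊((b ^ k : ℕ) : ℝ) ^ (1 - ε)⌋₊, |total (walks b δ k x₀ y) κ c w (x q) q| ≤
        (walks b δ k x₀ y).card * (((b ^ k : ℕ) : ℝ) / (k : ℝ) ^ U) := by
  classical
  obtain ⟨k₀, h0⟩ := Pool.Agent.N625.DY.cls_avg
    (Pool.Agent.N625.GW.w_cls (δ := δ) ⟨hG.symm, hG.two⟩ x₀ ρ hρ hR D κ hκ) B T U ε hε
  refine ⟨k₀ + 1, fun k hk y hy c hc w hw x hx => ?_⟩
  have hk1 : (0 : ℝ) < (k : ℝ) ^ D := by
    have : (0 : ℝ) < k := by exact_mod_cast (by omega : 0 < k)
    positivity
  have hy' : ρ ^ k ≤ (k : ℝ) ^ D * (walks b δ k x₀ y).card := by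
    rw [div_le_iff₀ hk1, mul_comm] at hy
    exact hy
  obtain ⟨S, hS⟩ : ∃ S, S = walks b δ k x₀ y := ⟨_, rfl⟩
  have hS' : S = Pool.Agent.N625.GW.walks b δ k x₀ y := hS
  have h1 := h0 k (by omega) _ ⟨y, hy', rfl⟩ c hc w hw x hx
  rw [← hS'] at h1
  rw [← hS]
  have hpos : (0 : ℝ) < S.card := by
    rw [hS']
    exact_mod_cast Pool.Agent.N625.GW.card_pos' hρ hy'
  have hsub : S ⊆ range (b ^ k) := by rw [hS']; exact Pool.Agent.N625.GW.w_sub k x₀ y
  have e1 : ∀ q, |∑ v ∈ (range (b ^ k)).filter (fun v => 0 < c + κ * (v : ℕ) ∧ (c + κ * (v : ℕ)).toNat.Coprime q),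
      (if v ∈ S then 1 / (S.card : ℝ) else 0) * (w v * Pool.Agent.N625.DY.Err (x q) q (c + κ * (v : ℕ)).toNat)| =
      |total S κ c w (x q) q| / S.card := by
    intro q
    have e2 : ∑ v ∈ (range (b ^ k)).filter (fun v => 0 < c + κ * (v : ℕ) ∧ (c + κ * (v : ℕ)).toNat.Coprime q),
        (if v ∈ S then 1 / (S.card : ℝ) else 0) * (w v * Pool.Agent.N625.DY.Err (x q) q (c + κ * (v : ℕ)).toNat) =
        1 / (S.card : ℝ) * total S κ c w (x q) q := by
      unfold total
      rw [mul_sum, sum_filter, sum_filter, ← sum_subset hsub (by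
        intro v _ hv
        rw [if_neg hv, zero_mul]
        split_ifs <;> rfl)]
      apply sum_congr rfl
      intro v hv
      rw [if_pos hv]
      rfl
    rw [e2, abs_mul, abs_of_pos (by positivity), one_div, inv_mul_eq_div]
  simp only [e1] at h1
  rw [← sum_div, div_le_iff₀ hpos] at h1
  rw [mul_comm]
  exact h1

end Pool.Agent.Results.MP_848d44_nt.WalkAverages
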